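import Pool.Agent.H7.Alpha7

namespace Pool.Agent.Results.MP_afe93a_an.L2Odd

open Pool.Agent.H7.Alpha

universe v

/-- For odd `n`, the constant alpha of complex `l_2^n` equals `(n+1)/2`. -/
theorem result (n : ℕ) (hn : Odd n) :
    alpha.{v} (EuclideanSpace ℂ (Fin n)) = ENNReal.ofReal (((n : ℝ) + 1) / 2) := by
  refine le_antisymm (alpha_l2_le n) ?_
  obtain ⟨k, rfl⟩ := hn
  have h := le_alpha_l2.{v} (2 * k + 1) k (by omega)
  have e : ((k : ℝ) + 1) * (((2 * k + 1 : ℕ) : ℝ) - k) = ((((2 * k + 1 : ℕ) : ℝ) + 1) / 2) ^ 2 := by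
    push_cast; ring
  rwa [e, Real.sqrt_sq (by positivity)] at h

end Pool.Agent.Results.MP_afe93a_an.L2Odd
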