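import Pool.Agent.H7.Alpha5

namespace Pool.Agent.Results.MP_afe93a_an.L2Upper

open Pool.Agent.H7.Alpha

universe v

/-- For every `n`, the constant alpha of complex `l_2^n` is at most `(n+1)/2`. -/
theorem result (n : ℕ) :
    alpha.{v} (EuclideanSpace ℂ (Fin n)) ≤ ENNReal.ofReal (((n : ℝ) + 1) / 2) :=
  alpha_l2_le n

end Pool.Agent.Results.MP_afe93a_an.L2Upper
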