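import Pool.Agent.H7.Alpha5

namespace Pool.Agent.Results.MP_afe93a_an.LinfUpper

open Pool.Agent.H7.Alpha

universe v

/-- For every `n`, the square of the constant alpha of complex `l_infty^n` is at most
`(1 + sqrt (n^2 - n + 1)) / 2`. -/
theorem result (n : ℕ) :
    alpha.{v} (Fin n → ℂ) ≤ ENNReal.ofReal √((1 + √((n : ℝ) ^ 2 - n + 1)) / 2) :=
  alpha_linf_le n

end Pool.Agent.Results.MP_afe93a_an.LinfUpper
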